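import Pool.Agent.Lib.helper11.QWheel

namespace Pool.Agent.Results.MP_159dfd_an.Bridge

open Pool.Agent.Lib.helper11.QGraph Set

theorem result : ∃ (G : QG (Fin 6) (Fin 9)) (μ : ℝ), G.Good ∧ (∀ v, G.str v = 0) ∧
    (∃ e, G.IsBridge e) ∧ G.IsSecond μ ∧ ∃ e, ∀ x ∈ Ioo 0 (G.len e), G.Hot μ e x :=
  ⟨W, _, W_good, fun _ => rfl, ⟨8, W_bridge⟩, W_second, 0, fun x _ => W_hot x⟩

end Pool.Agent.Results.MP_159dfd_an.Bridge
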